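import Mathlib
import Pool.Agent.W68.Her

set_option autoImplicit false

/-! Infinite exact patterns with a prescribed class of the index: homogeneous sets. -/

namespace Pool.Agent.W2helper64.HI

open Pool.Agent.W68.Her Pool.Agent.H38R3.Ell

/-- the primes near `n` are the numbers `n + x`, `x ∈ X` -/
def Ex (q : ℕ) (r : ℤ) (X : Set ℕ) (R : ℕ) (n : ℕ) : Prop :=
  (n : ℤ) ≡ r [ZMOD q] ∧ ∀ y : ℤ, |y| ≤ R → (Nat.Prime ((n : ℤ) + y).toNat ↔ ∃ x ∈ X, (x : ℤ) = y)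

/-- infinitely many such `n` whose index has the class `c` -/
def Oc (q : ℕ) (r : ℤ) (m c : ℕ) (X : Set ℕ) (R : ℕ) : Prop :=
  {n : ℕ | Ex q r X R n ∧ Nat.primeCounting n ≡ c [MOD m]}.Infinite

lemma Ex.mono {q : ℕ} {r : ℤ} {X : Set ℕ} {R R' n : ℕ} (hR : R ≤ R') (h : Ex q r X R' n) : Ex q r X R n :=
  ⟨h.1, fun y hy => h.2 y (hy.trans (by exact_mod_cast hR))⟩

lemma Oc.mono {q : ℕ} {r : ℤ} {m c : ℕ} {X : Set ℕ} {R R' : ℕ} (hR : R ≤ R') (h : Oc q r m c X R') :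
    Oc q r m c X R := Set.Infinite.mono (fun _ hn => ⟨hn.1.mono hR, hn.2⟩) h

lemma Oc.congr {q : ℕ} {r : ℤ} {m c : ℕ} {X X' : Set ℕ} {R : ℕ} (hX : ∀ x ≤ R, (x ∈ X ↔ x ∈ X'))
    (h : Oc q r m c X R) : Oc q r m c X' R := by
  refine Set.Infinite.mono ?_ h
  rintro n ⟨⟨h1, h2⟩, h3⟩
  refine ⟨⟨h1, fun y hy => (h2 y hy).trans ?_⟩, h3⟩
  constructor
  · rintro ⟨x, hx, rfl⟩
    exact ⟨x, (hX x (by simpa using hy)).1 hx, rfl⟩
  · rintro ⟨x, hx, rfl⟩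
    exact ⟨x, (hX x (by simpa using hy)).2 hx, rfl⟩

lemma eo (q : ℕ) (r : ℤ) (m c : ℕ) : EO {z : Set ℕ | ¬ ∀ R, Oc q r m c z R} := by
  intro z hz hzi
  simp only [Set.mem_ofPred_eq, not_forall] at hz
  obtain ⟨R, hR⟩ := hz
  obtain ⟨u, hu1, hu2, hu3, -⟩ := exists_init hzi (R + 1) 0
  refine ⟨u, hu1, fun w hw hcon => hR ((hcon R).congr fun x hx => ?_)⟩
  constructor
  · intro h
    rcases hw.2.2 x h with h1 | h1
    · exact hu3 x h1
    · exact h1.1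
  · intro h
    exact hw.2.1 x (hu2 x h (by omega))

lemma dich (q : ℕ) (r : ℤ) (m : ℕ) (Y : Set ℕ) (hY : Y.Infinite) (k : ℕ) :
    ∃ Z ⊆ Y, Z.Infinite ∧ ∀ c < k, (∀ U ⊆ Z, U.Infinite → ∀ R, Oc q r m c U R) ∨
      (∀ U ⊆ Z, U.Infinite → ¬ ∀ R, Oc q r m c U R) := by
  induction k with
  | zero => exact ⟨Y, le_rfl, hY, fun c hc => absurd hc (by omega)⟩
  | succ k ih =>
    obtain ⟨Z, h1, h2, h3⟩ := ih
    obtain ⟨Z', g1, g2, g3⟩ := (eo q r m k).cr ∅ Z h2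
    have hnb : ∀ U ⊆ Z', U.Infinite → U ∈ Nb ∅ Z' := fun U hU hUi =>
      ⟨hUi, by simp, fun n hn => Or.inr ⟨hU hn, by simp⟩⟩
    refine ⟨Z', g1.trans h1, g2, fun c hc => ?_⟩
    rcases Nat.lt_succ_iff_lt_or_eq.1 hc with hc | rfl
    · rcases h3 c hc with h | h
      · exact Or.inl fun U hU => h U (hU.trans g1)
      · exact Or.inr fun U hU => h U (hU.trans g1)
    · rcases g3 with h | h
      · exact Or.inr fun U hU hUi => h U (hnb U hU hUi)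
      · refine Or.inl fun U hU hUi => ?_
        by_contra hcon
        exact h U (hnb U hU hUi) hcon

/-- a homogeneous set -/
lemma hom (q : ℕ) (r : ℤ) (m : ℕ) (hm : 1 ≤ m) (Y : Set ℕ) (hY : Y.Infinite)
    (hex : ∀ U ⊆ Y, U.Infinite → ∀ R, {n : ℕ | Ex q r U R n}.Infinite) :
    ∃ Z ⊆ Y, Z.Infinite ∧ ∃ c < m, ∀ U ⊆ Z, U.Infinite → ∀ R, Oc q r m c U R := by
  classical
  obtain ⟨Z, h1, h2, h3⟩ := dich q r m Y hY m
  refine ⟨Z, h1, h2, ?_⟩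
  by_contra hcon
  push Not at hcon
  have h4 : ∀ c < m, ∃ R, ¬ Oc q r m c Z R := by
    intro c hc
    rcases h3 c hc with h | h
    · obtain ⟨U, hU, hUi, R, hR⟩ := hcon c hc
      exact absurd (h U hU hUi R) hR
    · have := h Z le_rfl h2
      push Not at this
      exact this
  choose! ρ hρ using h4
  obtain ⟨R, hR⟩ : ∃ R, ∀ c < m, ρ c ≤ R := ⟨(Finset.range m).sup ρ, fun c hc =>
    Finset.le_sup (Finset.mem_range.2 hc)⟩
  have h5 := hex Z h1 h2 R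
  apply h5
  have h6 : {n : ℕ | Ex q r Z R n} ⊆ ⋃ c ∈ Finset.range m,
      {n : ℕ | Ex q r Z R n ∧ Nat.primeCounting n ≡ c [MOD m]} := by
    intro n hn
    rw [Set.mem_iUnion₂]
    exact ⟨Nat.primeCounting n % m, Finset.mem_range.2 (Nat.mod_lt _ (by omega)), hn,
      (Nat.mod_modEq _ _).symm⟩
  refine Set.Finite.subset (Set.Finite.biUnion (Finset.range m).finite_toSet fun c hc => ?_) h6
  have hc' : c < m := Finset.mem_range.1 hc
  by_contra hinf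
  exact hρ c hc' (Oc.mono (hR c hc') hinf)

/-- exact patterns of shifts in a class from those of forms -/
lemma ex_of_exF {q : ℕ} (hq : 1 ≤ q) (r : ℤ) (U : Set ℕ)
    (h : ExF ((fun y : ℕ => ((q : ℤ), r + y)) '' U)) (R : ℕ) : {n : ℕ | Ex q r U R n}.Infinite := by
  classical
  have hq0 : (1 : ℤ) ≤ (q : ℤ) := by exact_mod_cast hq
  set T : Finset (ℤ × ℤ) := (Finset.Icc (-(R : ℤ)) R).image (fun y => ((q : ℤ), r + y)) with hT
  have h2 := h T (by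
    intro f hf
    obtain ⟨y, -, rfl⟩ := Finset.mem_image.1 hf
    exact hq0)
  set S := {m : ℕ | ∀ f ∈ T, (Nat.Prime (f.1 * m + f.2).toNat ↔
    f ∈ (fun y : ℕ => ((q : ℤ), r + y)) '' U)} with hS
  have h3 : (S \ Set.Iio r.natAbs).Infinite := h2.sdiff (Set.finite_Iio _)
  have hpos : ∀ m : ℕ, r.natAbs ≤ m → ((((q : ℤ) * m + r).toNat : ℕ) : ℤ) = (q : ℤ) * m + r := by
    intro m hm
    apply Int.toNat_of_nonneg
    have h4 : (r.natAbs : ℤ) ≤ m := by exact_mod_cast hm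
    rw [Int.natCast_natAbs] at h4
    have h5 := neg_abs_le r
    nlinarith
  have hinj : Set.InjOn (fun m : ℕ => ((q : ℤ) * m + r).toNat) (S \ Set.Iio r.natAbs) := by
    intro m hm m' hm' hmm'
    have e1 := hpos m (not_lt.1 hm.2)
    have e2 := hpos m' (not_lt.1 hm'.2)
    simp only at hmm'
    rw [hmm', e2] at e1
    have e3 : (q : ℤ) * m' = (q : ℤ) * m := by linarith
    have e4 := mul_left_cancel₀ (by linarith : (q : ℤ) ≠ 0) e3
    exact_mod_cast e4.symm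
  refine (h3.image hinj).mono ?_
  rintro _ ⟨m, ⟨hm, hm2⟩, rfl⟩
  have e1 := hpos m (not_lt.1 hm2)
  refine ⟨?_, fun y hy => ?_⟩
  · simp only
    rw [e1]
    exact Int.modEq_iff_dvd.2 ⟨-m, by ring⟩
  · simp only
    rw [e1]
    have h5 := hm ((q : ℤ), r + y) (by
      rw [hT, Finset.mem_image]
      exact ⟨y, Finset.mem_Icc.2 (abs_le.1 hy), rfl⟩)
    have e2 : (q : ℤ) * m + r + y = ((q : ℤ), r + y).1 * m + ((q : ℤ), r + y).2 := by
      simp only; ring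
    rw [e2, h5]
    constructor
    · rintro ⟨i, hi, hiy⟩
      refine ⟨i, hi, ?_⟩
      have := (Prod.ext_iff.1 hiy).2
      simp only at this
      linarith
    · rintro ⟨i, hi, hiy⟩
      exact ⟨i, hi, by rw [← hiy]⟩

/-- one stage -/
lemma stage (q : ℕ) (hq : 1 ≤ q) (r : ℤ) (m : ℕ) (hm : 1 ≤ m) (Y : Set ℕ) (hY : Y.Infinite) :
    ∃ Z ⊆ Y, Z.Infinite ∧ ((∀ y ∈ Z, ¬ IsCoprime (r + (y : ℤ)) (q : ℤ)) ∨
      ∃ c < m, ∀ U ⊆ Z, U.Infinite → ∀ R, Oc q r m c U R) := by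
  have hq0 : (1 : ℤ) ≤ (q : ℤ) := by exact_mod_cast hq
  by_cases h : {y ∈ Y | IsCoprime (r + (y : ℤ)) (q : ℤ)}.Infinite
  · obtain ⟨Z, h1, h2, h3⟩ := core (F := fun y : ℕ => ((q : ℤ), r + y)) (fun y y' hy => by
      have := (Prod.ext_iff.1 hy).2
      simp only at this
      exact_mod_cast (add_left_cancel this)) _ h (fun y hy => ⟨hq0, hy.2.symm⟩)
    obtain ⟨Z', g1, g2, c, hc, g3⟩ := hom q r m hm Z h2 (fun U hU _ R => ex_of_exF hq r U (h3 U hU) R)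
    exact ⟨Z', fun y hy => (h1 (g1 hy)).1, g2, Or.inr ⟨c, hc, g3⟩⟩
  · rw [Set.not_infinite] at h
    refine ⟨_, Set.sdiff_subset, hY.sdiff h, Or.inl fun y hy hcop => hy.2 ⟨hy.1, hcop⟩⟩

/-- the diagonal sequence -/
theorem diag (V : Set ℕ) (hV : V.Infinite) : ∃ b : ℕ → ℕ, StrictMono b ∧ (∀ i, b i ∈ V) ∧
    (∀ i, b i + i < b (i + 1)) ∧ ∀ (q : ℕ) (r : ℤ) (m : ℕ), 1 ≤ q → 1 ≤ m → ∃ k : ℕ,
      ((∀ i, k ≤ i → ¬ IsCoprime (r + (b i : ℤ)) (q : ℤ)) ∨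
        ∃ c < m, ∀ U ⊆ b '' Set.Ici k, U.Infinite → ∀ R, Oc q r m c U R) := by
  obtain ⟨f, hf⟩ := exists_surjective_nat (ℕ × ℤ × ℕ)
  have hstep : ∀ (j : ℕ) (Y : {Y : Set ℕ // Y.Infinite}), ∃ Z : {Y : Set ℕ // Y.Infinite},
      Z.1 ⊆ Y.1 ∧ ((∀ y ∈ Z.1, ¬ IsCoprime ((f j).2.1 + (y : ℤ)) (((f j).1 + 1 : ℕ) : ℤ)) ∨
        ∃ c < (f j).2.2 + 1, ∀ U ⊆ Z.1, U.Infinite → ∀ R, Oc ((f j).1 + 1) (f j).2.1 ((f j).2.2 + 1) c U R) := by
    intro j Y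
    obtain ⟨Z, h1, h2, h3⟩ := stage ((f j).1 + 1) (by omega) (f j).2.1 ((f j).2.2 + 1) (by omega) Y.1 Y.2
    exact ⟨⟨Z, h2⟩, h1, h3⟩
  choose nx hnx1 hnx2 using hstep
  let s : ℕ → {Y : Set ℕ // Y.Infinite} := fun k =>
    Nat.rec (nx 0 ⟨V, hV⟩) (fun j Y => nx (j + 1) Y) k
  have hs : ∀ k, s (k + 1) = nx (k + 1) (s k) := fun k => rfl
  have hs0 : s 0 = nx 0 ⟨V, hV⟩ := rfl
  have hgood : ∀ k, ((∀ y ∈ (s k).1, ¬ IsCoprime ((f k).2.1 + (y : ℤ)) (((f k).1 + 1 : ℕ) : ℤ)) ∨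
        ∃ c < (f k).2.2 + 1, ∀ U ⊆ (s k).1, U.Infinite →
          ∀ R, Oc ((f k).1 + 1) (f k).2.1 ((f k).2.2 + 1) c U R) := by
    intro k
    rcases k with _ | k
    · exact hnx2 0 _
    · rw [hs]
      exact hnx2 (k + 1) _
  have hanti : Antitone fun k => (s k).1 := antitone_nat_of_succ_le fun k => by
    show (s (k + 1)).1 ⊆ (s k).1
    rw [hs]
    exact hnx1 _ _
  have hex : ∀ (k m : ℕ), ∃ a ∈ (s k).1, m < a := fun k m => (s k).2.exists_gt m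
  choose g hg1 hg2 using hex
  let b : ℕ → ℕ := fun k => Nat.rec (g 0 0) (fun j x => g (j + 1) (x + j)) k
  have hb : ∀ k, b (k + 1) = g (k + 1) (b k + k) := fun k => rfl
  have hbm : ∀ k, b k + k < b (k + 1) := fun k => by
    rw [hb]
    exact hg2 _ _
  have hbs : ∀ k, b k ∈ (s k).1 := by
    intro k
    rcases k with _ | k
    · exact hg1 0 0
    · exact hg1 (k + 1) (b k + k)
  have hbm2 : StrictMono b := strictMono_nat_of_lt_succ fun k => by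
    have := hbm k
    omega
  refine ⟨b, hbm2, fun i => ?_, hbm, ?_⟩
  · have h1 : (s i).1 ⊆ (s 0).1 := hanti (Nat.zero_le i)
    have h2 : (s 0).1 ⊆ V := by
      rw [hs0]
      exact hnx1 0 ⟨V, hV⟩
    exact h2 (h1 (hbs i))
  · intro q r m hq hm
    obtain ⟨k, hk⟩ := hf (q - 1, r, m - 1)
    refine ⟨k, ?_⟩
    have h1 := hgood k
    rw [hk] at h1
    simp only at h1
    rw [show q - 1 + 1 = q by omega, show m - 1 + 1 = m by omega] at h1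
    rcases h1 with h1 | ⟨c, hc, h1⟩
    · exact Or.inl fun i hi => h1 (b i) (hanti hi (hbs i))
    · refine Or.inr ⟨c, hc, fun U hU => h1 U (hU.trans ?_)⟩
      rintro _ ⟨i, hi, rfl⟩
      exact hanti hi (hbs i)

end Pool.Agent.W2helper64.HI
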