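import Mathlib
import Pool.Agent.W2helper64.HI.Hom

set_option autoImplicit false

/-! Infinite exact patterns with all classes of the index: conclusion. -/

namespace Pool.Agent.W2helper64.HI

open Finset

lemma pi_add (n t : ℕ) : Nat.primeCounting (n + t) =
    Nat.primeCounting n + ((range t).filter (fun k => (n + (k + 1)).Prime)).card := by
  rw [Nat.primeCounting, Nat.primeCounting', Nat.primeCounting, Nat.primeCounting',
    show n + t + 1 = (n + 1) + t by ring, Nat.count_add, Nat.count_eq_card_filter_range _ t]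
  congr 2
  ext k
  rw [mem_filter, mem_filter, show n + 1 + k = n + (k + 1) by ring]

/-- the statement for one sequence -/
theorem fin_seq (b : ℕ → ℕ) (hb : StrictMono b) (hgap : ∀ i, b i + i < b (i + 1))
    (hd : ∀ (q : ℕ) (r : ℤ) (m : ℕ), 1 ≤ q → 1 ≤ m → ∃ k : ℕ,
      ((∀ i, k ≤ i → ¬ IsCoprime (r + (b i : ℤ)) (q : ℤ)) ∨
        ∃ c < m, ∀ U ⊆ b '' Set.Ici k, U.Infinite → ∀ R, Oc q r m c U R))
    (m q M : ℕ) (hm : 1 ≤ m) (hq : 1 ≤ q) : ∃ K : ℕ, ∀ T ⊆ Set.range b, (∀ t ∈ T, K ≤ t) → ∀ t₀ ∈ T,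
      (∀ t ∈ T, t₀ ≤ t) → ∀ (c : ℕ) (a : ℤ), IsCoprime a (q : ℤ) → ∀ R : ℕ,
        {p : ℕ | p.Prime ∧ (p : ℤ) ≡ a [ZMOD q] ∧ Nat.primeCounting p ≡ c [MOD m] ∧
          ∀ y : ℤ, -(M : ℤ) ≤ y → y ≤ R → (((p : ℤ) + y).toNat.Prime ↔ ∃ t ∈ T, (t : ℤ) = t₀ + y)}.Infinite := by
  classical
  have hq0 : (0 : ℤ) < (q : ℤ) := by exact_mod_cast hq
  -- the thresholds of the residue classes
  choose κ hκ using fun r : ℤ => hd q r m hq hm
  obtain ⟨k₁, hk₁⟩ : ∃ k₁ : ℕ, ∀ r : ℕ, r < q → κ r ≤ k₁ := ⟨(range q).sup (fun r => κ r), fun r hr =>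
    le_sup (f := fun r : ℕ => κ r) (mem_range.2 hr)⟩
  refine ⟨b (k₁ + m + M + 1), fun T hT hK t₀ ht₀ hmin c a ha R => ?_⟩
  obtain ⟨i₀, hi₀⟩ := hT ht₀
  have hi0 : k₁ + m + M + 1 ≤ i₀ := by
    have := hK t₀ ht₀
    rw [← hi₀] at this
    exact hb.le_iff_le.1 this
  -- the class of `n`
  obtain ⟨ρ, hρ⟩ : ∃ ρ : ℕ, (ρ : ℤ) = (a - t₀) % q := ⟨((a - t₀) % (q : ℤ)).toNat,
    Int.toNat_of_nonneg (Int.emod_nonneg _ hq0.ne')⟩
  have hρq : ρ < q := by
    have := Int.emod_lt_of_pos (a - t₀) hq0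
    rw [← hρ] at this
    exact_mod_cast this
  have hρa : (ρ : ℤ) + t₀ ≡ a [ZMOD q] := by
    have h1 : (ρ : ℤ) ≡ a - t₀ [ZMOD q] := by rw [hρ]; exact Int.mod_modEq _ _
    have h2 := h1.add_right (t₀ : ℤ)
    rwa [sub_add_cancel] at h2
  have hcopρ : IsCoprime ((ρ : ℤ) + t₀) (q : ℤ) := by
    obtain ⟨w, hw⟩ := hρa.symm.dvd
    have h3 : (ρ : ℤ) + t₀ = a + q * w := by linarith
    rw [h3]
    exact ha.add_mul_left_left w
  rcases hκ ρ with h1 | ⟨c₁, hc₁, h1⟩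
  · exfalso
    refine h1 i₀ ?_ ?_
    · have := hk₁ ρ hρq
      omega
    · rw [hi₀]
      exact hcopρ
  -- the number of the additional elements
  obtain ⟨s, hs1, hs2⟩ : ∃ s : ℕ, s < m ∧ c₁ + (s + 1) ≡ c [MOD m] := by
    refine ⟨(c + (m * (c₁ + 1) - (c₁ + 1))) % m, Nat.mod_lt _ (by omega), ?_⟩
    have h2 : (c + (m * (c₁ + 1) - (c₁ + 1))) % m ≡ c + (m * (c₁ + 1) - (c₁ + 1)) [MOD m] := Nat.mod_modEq _ _
    have h3 := (h2.add_right (c₁ + 1))
    have h4 : c₁ + 1 ≤ m * (c₁ + 1) := Nat.le_mul_of_pos_left _ (by omega)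
    have h5 : c + (m * (c₁ + 1) - (c₁ + 1)) + (c₁ + 1) = c + m * (c₁ + 1) := by omega
    rw [h5] at h3
    have h6 : c + m * (c₁ + 1) ≡ c [MOD m] := by
      have : m * (c₁ + 1) ≡ 0 [MOD m] := (Nat.modEq_zero_iff_dvd).2 (dvd_mul_right _ _)
      simpa using this.add_left c
    have h7 := h3.trans h6
    have h8 : c₁ + ((c + (m * (c₁ + 1) - (c₁ + 1))) % m + 1) =
        (c + (m * (c₁ + 1) - (c₁ + 1))) % m + (c₁ + 1) := by omega
    rw [h8]
    exact h7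
  -- the pattern
  obtain ⟨U, hU⟩ : ∃ U : Set ℕ, U = b '' Set.Ico (i₀ - s) i₀ ∪ T ∪ {x | x ∈ Set.range b ∧ t₀ + R < x} := ⟨_, rfl⟩
  have hU1 : U ⊆ b '' Set.Ici (κ ρ) := by
    have hkk : κ ρ ≤ i₀ - s := by
      have := hk₁ ρ hρq
      omega
    rw [hU]
    rintro x ((⟨i, hi, rfl⟩ | hx) | ⟨⟨i, rfl⟩, hx⟩)
    · exact ⟨i, hkk.trans hi.1, rfl⟩
    · obtain ⟨i, rfl⟩ := hT hx
      refine ⟨i, ?_, rfl⟩
      have h2 := hmin _ hx
      rw [← hi₀] at h2
      have h3 := hb.le_iff_le.1 h2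
      show κ ρ ≤ i
      omega
    · refine ⟨i, ?_, rfl⟩
      have h2 : b i₀ ≤ b i := by omega
      have h3 := hb.le_iff_le.1 h2
      show κ ρ ≤ i
      omega
  have hU2 : U.Infinite := by
    have h2 : ((Set.range b) \ Set.Iic (t₀ + R)).Infinite :=
      (Set.infinite_range_of_injective hb.injective).sdiff (Set.finite_Iic _)
    refine h2.mono ?_
    rw [hU]
    rintro x ⟨hx1, hx2⟩
    exact Or.inr ⟨hx1, not_le.1 hx2⟩
  have h2 := h1 U hU1 hU2 (t₀ + R)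
  have ht₀U : t₀ ∈ U := by rw [hU]; exact Or.inl (Or.inr ht₀)
  have hbpos : ∀ i, 1 ≤ i → 1 ≤ b i := fun i hi => by
    have h3 := hb.le_apply (x := i)
    omega
  have hMt : b (i₀ - 1) + M < t₀ := by
    have h3 := hgap (i₀ - 1)
    rw [show i₀ - 1 + 1 = i₀ by omega, hi₀] at h3
    omega
  -- the elements of `U` up to `t₀`
  have hUle : ∀ x, x ≤ t₀ + R → (x ∈ U ↔ x ∈ b '' Set.Ico (i₀ - s) i₀ ∨ x ∈ T) := by
    intro x hx
    rw [hU]
    constructor
    · rintro (h | ⟨-, h⟩)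
      · exact h
      · omega
    · exact fun h => Or.inl h
  have hIco : ∀ x ∈ b '' Set.Ico (i₀ - s) i₀, x + M < t₀ := by
    rintro _ ⟨i, hi, rfl⟩
    have : b i ≤ b (i₀ - 1) := hb.monotone (by have := hi.2; omega)
    omega
  have hcount : ((range t₀).filter (fun k => k + 1 ∈ U)).card = s + 1 := by
    have h3 : (range t₀).filter (fun k => k + 1 ∈ U) = (Icc (i₀ - s) i₀).image (fun i => b i - 1) := by
      ext k
      rw [mem_filter, mem_range, mem_image]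
      constructor
      · rintro ⟨hk1, hk2⟩
        rw [hUle _ (by omega)] at hk2
        rcases hk2 with ⟨i, hi, hik⟩ | hk2
        · exact ⟨i, mem_Icc.2 ⟨hi.1, hi.2.le⟩, by omega⟩
        · have := hmin _ hk2
          exact ⟨i₀, mem_Icc.2 ⟨by omega, le_rfl⟩, by omega⟩
      · rintro ⟨i, hi, rfl⟩
        rw [mem_Icc] at hi
        have h4 := hbpos i (by omega)
        have h5 : b i ≤ t₀ := by rw [← hi₀]; exact hb.monotone hi.2
        refine ⟨by omega, ?_⟩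
        rw [Nat.sub_add_cancel h4, hUle _ (by omega)]
        rcases Nat.lt_or_ge i i₀ with h6 | h6
        · exact Or.inl ⟨i, ⟨hi.1, h6⟩, rfl⟩
        · right
          have : i = i₀ := by omega
          rw [this, hi₀]
          exact ht₀
    rw [h3, card_image_of_injOn, Nat.card_Icc]
    · omega
    · intro i hi j hj hij
      rw [mem_coe, mem_Icc] at hi hj
      have e1 := hbpos i (by omega)
      have e2 := hbpos j (by omega)
      simp only at hij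
      exact hb.injective (by omega)
  have hinj : Set.InjOn (fun n : ℕ => n + t₀) {n : ℕ | Ex q ρ U (t₀ + R) n ∧ Nat.primeCounting n ≡ c₁ [MOD m]} :=
    fun x _ y _ hxy => by simpa using hxy
  have h2' : {n : ℕ | Ex q ρ U (t₀ + R) n ∧ Nat.primeCounting n ≡ c₁ [MOD m]}.Infinite := h2
  refine (h2'.image hinj).mono ?_
  rintro _ ⟨n, ⟨⟨hn1, hn2⟩, hn3⟩, rfl⟩
  have hprime : ∀ x : ℕ, x ≤ t₀ + R → ((n + x).Prime ↔ x ∈ U) := by
    intro x hx
    have h3 := hn2 (x : ℤ) (by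
      rw [abs_of_nonneg (by positivity)]
      exact_mod_cast hx)
    rw [show ((n : ℤ) + (x : ℤ)).toNat = n + x by omega] at h3
    rw [h3]
    constructor
    · rintro ⟨x', hx', h4⟩
      have : x' = x := by exact_mod_cast h4
      rwa [← this]
    · exact fun h => ⟨x, h, rfl⟩
  refine ⟨(hprime t₀ (by omega)).2 ht₀U, ?_, ?_, ?_⟩
  · simp only
    push_cast
    exact (hn1.add_right _).trans hρa
  · simp only
    rw [pi_add]
    have h3 : (range t₀).filter (fun k => (n + (k + 1)).Prime) = (range t₀).filter (fun k => k + 1 ∈ U) := by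
      apply filter_congr
      intro k hk
      rw [mem_range] at hk
      exact hprime (k + 1) (by omega)
    rw [h3, hcount]
    exact (hn3.add_right _).trans hs2
  · intro y hy1 hy2
    obtain ⟨x, hx⟩ : ∃ x : ℕ, (x : ℤ) = t₀ + y := ⟨((t₀ : ℤ) + y).toNat, Int.toNat_of_nonneg (by omega)⟩
    have hxR : x ≤ t₀ + R := by omega
    have h3 : (((n + t₀ : ℕ) : ℤ) + y).toNat = n + x := by
      push_cast
      omega
    simp only
    rw [h3, hprime x hxR, hUle x hxR]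
    constructor
    · rintro (h | h)
      · exfalso
        have := hIco x h
        omega
      · exact ⟨x, h, hx⟩
    · rintro ⟨t, ht, htx⟩
      right
      have : t = x := by omega
      rwa [← this]

theorem main (V : Set ℕ) (hV : V.Infinite) : ∃ B ⊆ V, B.Infinite ∧ ∀ m q M : ℕ, 1 ≤ m → 1 ≤ q →
    ∃ K : ℕ, ∀ T ⊆ B, (∀ t ∈ T, K ≤ t) → ∀ t₀ ∈ T, (∀ t ∈ T, t₀ ≤ t) → ∀ (c : ℕ) (a : ℤ),
      IsCoprime a (q : ℤ) → ∀ R : ℕ, {p : ℕ | p.Prime ∧ (p : ℤ) ≡ a [ZMOD q] ∧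
        Nat.primeCounting p ≡ c [MOD m] ∧ ∀ y : ℤ, -(M : ℤ) ≤ y → y ≤ R →
          (((p : ℤ) + y).toNat.Prime ↔ ∃ t ∈ T, (t : ℤ) = t₀ + y)}.Infinite := by
  obtain ⟨b, hb, hbV, hgap, hd⟩ := diag V hV
  refine ⟨Set.range b, ?_, Set.infinite_range_of_injective hb.injective, fun m q M hm hq =>
    fin_seq b hb hgap hd m q M hm hq⟩
  rintro _ ⟨i, rfl⟩
  exact hbV i

end Pool.Agent.W2helper64.HI
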